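import Pool.Agent.N469.GG.Grow
import Pool.Agent.Results.MP_443e5f_co.AlmostAllVertices

set_option autoImplicit false

/-! The vertices of large degree can be added to the bounded part of the Goldbach graphs. -/

namespace Pool.Agent.N469.GG
open Finset
open Pool.Agent.Results.MP_443e5f_co.AlmostAllVertices (goldbach nearGoldbach AlmostBounded OddPrimeBelow)

/-- the set `X` is a part of the graph with few components of small diameter, and few vertices are outside -/
def Bdd {V : Type} (G : SimpleGraph V) (X : Set V) (C : ℕ) (c : ℝ) (U n : ℕ) : Prop :=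
  (Xᶜ.ncard : ℝ) ≤ n / Real.log n ^ U ∧
    Nat.card (G.induce X).ConnectedComponent ≤ C ∧
    (∀ u v : X, (G.induce X).Reachable u v → (G.induce X).dist u v ≤ C) ∧
    ∀ u : X, c * (n / Real.log n ^ 2) ≤ (((G.induce X).neighborSet u).ncard : ℝ)

lemma nb_le {V : Type} [Finite V] (G : SimpleGraph V) (X : Set V) (u : X) (S : Set V) (hS : S ⊆ X) (hS2 : S ⊆ G.neighborSet u.1) :
    S.ncard ≤ ((G.induce X).neighborSet u).ncard := by
  have h1 : S.ncard = (((↑) : X → V) ⁻¹' S).ncard := by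
    rw [← Set.ncard_image_of_injective _ Subtype.val_injective]
    congr 1
    ext v
    constructor
    · intro hv
      exact ⟨⟨v, hS hv⟩, hv, rfl⟩
    · rintro ⟨w, hw, rfl⟩
      exact hw
  rw [h1]
  apply Set.ncard_le_ncard _ (Set.toFinite _)
  intro w hw
  exact hS2 hw

/-- all the vertices of large degree can be added -/
theorem absorb {V : Type} [Finite V] (G : SimpleGraph V) (C : ℕ) (c c₁ : ℝ) (U n : ℕ) (h₀ : AlmostBounded G C c U n) (hc1 : 0 < c₁)
    (hpos : 0 < (n : ℝ) / Real.log n ^ 2) (hlarge : (n : ℝ) / Real.log n ^ U ≤ c₁ / 2 * (n / Real.log n ^ 2)) :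
    ∃ X : Set V, Bdd G X (C * (C + 3) + C) (min c (c₁ / 2)) U n ∧
      ∀ a : V, c₁ * (n / Real.log n ^ 2) ≤ ((G.neighborSet a).ncard : ℝ) → a ∈ X := by
  classical
  obtain ⟨X₀, h1, h2, h3, h4⟩ := h₀
  have hnb : ∀ a : V, c₁ * (n / Real.log n ^ 2) ≤ ((G.neighborSet a).ncard : ℝ) →
      c₁ / 2 * (n / Real.log n ^ 2) ≤ ((G.neighborSet a ∩ X₀).ncard : ℝ) := by
    intro a ha
    have e1 : (G.neighborSet a).ncard ≤ (G.neighborSet a ∩ X₀).ncard + X₀ᶜ.ncard := by
      have : G.neighborSet a ⊆ (G.neighborSet a ∩ X₀) ∪ X₀ᶜ := by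
        intro b hb
        by_cases hb2 : b ∈ X₀
        · exact Or.inl ⟨hb, hb2⟩
        · exact Or.inr hb2
      exact (Set.ncard_le_ncard this (Set.toFinite _)).trans (Set.ncard_union_le _ _)
    have e2 : ((G.neighborSet a).ncard : ℝ) ≤ ((G.neighborSet a ∩ X₀).ncard : ℝ) + (X₀ᶜ.ncard : ℝ) := by exact_mod_cast e1
    linarith
  obtain ⟨X, hXd⟩ : ∃ X : Set V, X = X₀ ∪ {a : V | c₁ * (n / Real.log n ^ 2) ≤ ((G.neighborSet a).ncard : ℝ)} := ⟨_, rfl⟩
  have hsub : X₀ ⊆ X := by rw [hXd]; exact Set.subset_union_left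
  have hXm : ∀ w, w ∈ X → w ∈ X₀ ∨ c₁ * (n / Real.log n ^ 2) ≤ ((G.neighborSet w).ncard : ℝ) := by
    intro w hw
    rw [hXd] at hw
    exact hw
  obtain ⟨g1, g2⟩ := grow G X₀ X hsub C h2 h3 (by
    intro x hx hx0
    rw [hXd] at hx
    rcases hx with hx | hx
    · exact absurd hx hx0
    · have e1 := hnb x hx
      have e2 : 0 < ((G.neighborSet x ∩ X₀).ncard : ℝ) := lt_of_lt_of_le (by positivity) e1
      have e3 : 0 < (G.neighborSet x ∩ X₀).ncard := by exact_mod_cast e2
      obtain ⟨z, hz⟩ := (Set.ncard_pos (Set.toFinite _)).1 e3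
      exact ⟨z, hz.2, hz.1⟩)
  refine ⟨X, ⟨?_, by omega, fun u v huv => (g2 u v huv).trans (by omega), ?_⟩, ?_⟩
  · refine le_trans ?_ h1
    exact_mod_cast Set.ncard_le_ncard (Set.compl_subset_compl.2 hsub) (Set.toFinite _)
  · intro u
    by_cases hu : u.1 ∈ X₀
    · have e1 := h4 ⟨u.1, hu⟩
      have e2 : ((G.induce X₀).neighborSet ⟨u.1, hu⟩).ncard ≤ ((G.induce X).neighborSet u).ncard := by
        rw [← Set.ncard_image_of_injective _ Subtype.val_injective]
        apply nb_le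
        · rintro _ ⟨w, _, rfl⟩
          exact hsub w.2
        · rintro _ ⟨w, hw, rfl⟩
          exact hw
      calc min c (c₁ / 2) * (n / Real.log n ^ 2) ≤ c * (n / Real.log n ^ 2) :=
            mul_le_mul_of_nonneg_right (min_le_left _ _) hpos.le
        _ ≤ _ := e1
        _ ≤ _ := by exact_mod_cast e2
    · have hu2 : c₁ * (n / Real.log n ^ 2) ≤ ((G.neighborSet u.1).ncard : ℝ) := by
        rcases hXm u.1 u.2 with h | h
        · exact absurd h hu
        · exact h
      have e2 : (G.neighborSet u.1 ∩ X₀).ncard ≤ ((G.induce X).neighborSet u).ncard :=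
        nb_le G X u _ (fun w hw => hsub hw.2) (fun w hw => hw.1)
      calc min c (c₁ / 2) * (n / Real.log n ^ 2) ≤ c₁ / 2 * (n / Real.log n ^ 2) :=
            mul_le_mul_of_nonneg_right (min_le_right _ _) hpos.le
        _ ≤ _ := hnb u.1 hu2
        _ ≤ _ := by exact_mod_cast e2
  · intro a ha
    rw [hXd]
    exact Or.inr ha

instance (n : ℕ) : Finite {a : ℕ // Even a ∧ a ≤ 2 * n} :=
  Finite.of_injective (fun a => (⟨a.1, by have := a.2.2; omega⟩ : Fin (2 * n + 1))) (fun a b h => by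
    apply Subtype.ext
    simpa using h)

instance (n : ℕ) : Finite {a : ℕ // Even a ∧ 2 ≤ a ∧ a ≤ 2 * n} :=
  Finite.of_injective (fun a => (⟨a.1, by have := a.2.2.2; omega⟩ : Fin (2 * n + 1))) (fun a b h => by
    apply Subtype.ext
    simpa using h)

/-- the positive neighbours of `a` in the Goldbach graph -/
noncomputable def Nb (n a : ℕ) : Finset ℕ := by
  classical
  exact (range (2 * n + 1)).filter (fun b => 2 ≤ b ∧ Even b ∧ a ≠ b ∧ OddPrimeBelow n ((a + b) / 2) ∧ OddPrimeBelow n (Nat.dist a b / 2))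

lemma mem_Nb {n a b : ℕ} : b ∈ Nb n a ↔ b < 2 * n + 1 ∧ 2 ≤ b ∧ Even b ∧ a ≠ b ∧ OddPrimeBelow n ((a + b) / 2) ∧
    OddPrimeBelow n (Nat.dist a b / 2) := by
  classical
  unfold Nb
  rw [mem_filter, mem_range]

lemma nb_gold (n a : ℕ) (ha : Even a ∧ a ≤ 2 * n) : (Nb n a).card ≤ ((goldbach n).neighborSet ⟨a, ha⟩).ncard := by
  classical
  rw [← Set.ncard_coe_finset, ← Set.ncard_image_of_injective ((goldbach n).neighborSet ⟨a, ha⟩) Subtype.val_injective]
  apply Set.ncard_le_ncard _ (Set.toFinite _)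
  intro b hb
  rw [mem_coe, mem_Nb] at hb
  obtain ⟨h1, -, h3, h4, h5, h6⟩ := hb
  refine ⟨⟨b, h3, by omega⟩, ?_, rfl⟩
  exact ⟨fun h => h4 (congrArg Subtype.val h), h5, h6⟩

lemma nb_near (n a : ℕ) (ha : Even a ∧ 2 ≤ a ∧ a ≤ 2 * n) : (Nb n a).card ≤ ((nearGoldbach n).neighborSet ⟨a, ha⟩).ncard := by
  classical
  rw [← Set.ncard_coe_finset, ← Set.ncard_image_of_injective ((nearGoldbach n).neighborSet ⟨a, ha⟩) Subtype.val_injective]
  apply Set.ncard_le_ncard _ (Set.toFinite _)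
  intro b hb
  rw [mem_coe, mem_Nb] at hb
  obtain ⟨h1, h2, h3, h4, h5, h6⟩ := hb
  refine ⟨⟨b, h3, h2, by omega⟩, ?_, rfl⟩
  exact ⟨fun h => h4 (congrArg Subtype.val h), Or.inr h5, Or.inr h6⟩

/-- neighbours from prime pairs with difference `a` -/
lemma nb_pair (n a : ℕ) (ha2 : Even a) (h2 : 2 ≤ a) (han : a ≤ n) :
    ((Icc 1 (n / 2)).filter (fun p : ℕ => p.Prime ∧ (p + a).Prime)).card ≤ (Nb n a).card := by
  apply card_le_card_of_injOn (fun q : ℕ => 2 * q + a)
  · intro q hq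
    rw [mem_coe, mem_filter, mem_Icc] at hq
    obtain ⟨⟨q1, q2⟩, q3, q4⟩ := hq
    rw [mem_coe, mem_Nb]
    beta_reduce
    obtain ⟨k, hk⟩ := ha2
    have hodd : ∀ p : ℕ, p.Prime → p ≠ 2 → Odd p := fun p hp h => hp.odd_of_ne_two h
    have e1 : (a + (2 * q + a)) / 2 = q + a := by omega
    have e2 : Nat.dist a (2 * q + a) / 2 = q := by
      unfold Nat.dist
      omega
    have hq2 : q ≠ 2 := by
      rintro rfl
      have h3 : 2 ∣ 2 + a := by omega
      have := (Nat.prime_dvd_prime_iff_eq Nat.prime_two q4).1 h3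
      omega
    rw [e1, e2]
    refine ⟨by omega, by omega, ⟨q + k, by omega⟩, by omega, ⟨q4, hodd _ q4 (by omega), by omega⟩, ⟨q3, hodd _ q3 hq2, by omega⟩⟩
  · intro x _ y _ hxy
    simp only at hxy
    omega

/-- neighbours from representations of `a` as a sum of two primes -/
lemma nb_sum (n a : ℕ) (ha2 : Even a) (h6 : 6 ≤ a) (han : a ≤ 2 * n) :
    ((Ioc (a / 2) a).filter (fun p : ℕ => p.Prime ∧ (a - p).Prime)).card ≤ (Nb n a).card := by
  apply card_le_card_of_injOn (fun p : ℕ => 2 * p - a)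
  · intro p hp
    rw [mem_coe, mem_filter, mem_Ioc] at hp
    obtain ⟨⟨q1, q2⟩, q3, q4⟩ := hp
    rw [mem_coe, mem_Nb]
    beta_reduce
    obtain ⟨k, hk⟩ := ha2
    have hodd : ∀ p : ℕ, p.Prime → p ≠ 2 → Odd p := fun p hp h => hp.odd_of_ne_two h
    have hp3 := q4.two_le
    have e1 : (a + (2 * p - a)) / 2 = p := by omega
    have e2 : Nat.dist a (2 * p - a) / 2 = a - p := by
      unfold Nat.dist
      omega
    have hq2 : a - p ≠ 2 := by
      intro h
      have h3 : 2 ∣ p := by omega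
      have := (Nat.prime_dvd_prime_iff_eq Nat.prime_two q3).1 h3
      omega
    rw [e1, e2]
    refine ⟨by omega, by omega, ⟨p - k, by omega⟩, by omega, ⟨q3, hodd _ q3 (by omega), ?_⟩, ⟨q4, hodd _ q4 hq2, by omega⟩⟩
    omega
  · intro x hx y hy hxy
    rw [mem_coe, mem_filter, mem_Ioc] at hx hy
    simp only at hxy
    omega

/-- the neighbours of `0` -/
lemma nb_zero (n : ℕ) : (((range (n + 1)).filter Nat.Prime).card : ℝ) - 1 ≤ ((Nb n 0).card : ℝ) := by
  have h1 : (((range (n + 1)).filter Nat.Prime).erase 2).card ≤ (Nb n 0).card := by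
    apply card_le_card_of_injOn (fun p : ℕ => 2 * p)
    · intro p hp
      rw [mem_coe, mem_erase, mem_filter, mem_range] at hp
      obtain ⟨q1, q2, q3⟩ := hp
      rw [mem_coe, mem_Nb]
      beta_reduce
      have := q3.two_le
      have e1 : (0 + 2 * p) / 2 = p := by omega
      have e2 : Nat.dist 0 (2 * p) / 2 = p := by
        unfold Nat.dist
        omega
      rw [e1, e2]
      exact ⟨by omega, by omega, ⟨p, by omega⟩, by omega, ⟨q3, q3.odd_of_ne_two q1, by omega⟩, ⟨q3, q3.odd_of_ne_two q1, by omega⟩⟩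
    · intro x _ y _ hxy
      simp only at hxy
      omega
  have h2 : ((range (n + 1)).filter Nat.Prime).card - 1 ≤ (((range (n + 1)).filter Nat.Prime).erase 2).card := pred_card_le_card_erase
  have h3 : ((range (n + 1)).filter Nat.Prime).card ≤ (Nb n 0).card + 1 := by omega
  have h4 : (((range (n + 1)).filter Nat.Prime).card : ℝ) ≤ ((Nb n 0).card : ℝ) + 1 := by exact_mod_cast h3
  linarith

end Pool.Agent.N469.GG
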