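import Pool.Agent.N469.GG.Abs
import Pool.Agent.N469.TL.Pair1
import Pool.Agent.N469.TL.Windows

set_option autoImplicit false

/-! Almost all smooth vertices of the Goldbach graphs have many neighbours. -/

namespace Pool.Agent.N469.GG
open Finset
open Pool.Agent.H373R2.T7
open Pool.Agent.W93.TD (HLs)
open Pool.Agent.W93.PG (WinP cnt)
open Pool.Agent.N469.TL (Cond)
open Pool.Agent.N469.SM (SS mem_SS one_mem_SS SS_mono card_SS_le card_SS_pos)

/-- a lower bound for the number of the neighbours -/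
lemma deg_low : ∃ c₁ : ℝ, 0 < c₁ ∧ ∃ n₀ : ℕ, ∀ n : ℕ, n₀ ≤ n →
    (c₁ * (n / Real.log n ^ 2) ≤ ((Nb n 0).card : ℝ)) ∧
    (∀ U a : ℕ, Even a → 2 ≤ a → a ≤ n → HLs (1 / 2) U (n / 2) (fun _ : Fin 1 => a) → c₁ * (n / Real.log n ^ 2) ≤ ((Nb n a).card : ℝ)) ∧
    (∀ a : ℕ, Even a → n < a → a ≤ 2 * n → WinP (1 / 2) 1 a → c₁ * (n / Real.log n ^ 2) ≤ ((Nb n a).card : ℝ)) := by
  obtain ⟨c, hc, hlow⟩ := Pool.Agent.N469.TL.hls_low
  obtain ⟨n1, h1⟩ := ev_L' 4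
  obtain ⟨n2, h2⟩ := ev_log' 2 2
  refine ⟨min (c / 3) (1 / 16), lt_min (by positivity) (by norm_num), n1 + n2 + 16, fun n hn => ?_⟩
  have a1 := h1 n (by omega)
  have a2 := h2 n (by omega)
  have hn16 : (16 : ℝ) ≤ n := by exact_mod_cast (by omega : 16 ≤ n)
  have hn0 : (0 : ℝ) < n := by linarith
  obtain ⟨L, hL⟩ : ∃ L, L = Real.log (n : ℝ) := ⟨_, rfl⟩
  rw [← hL] at a1 a2 ⊢
  have hL0 : 0 < L := by linarith
  have hpos : 0 < (n : ℝ) / L ^ 2 := by positivity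
  have hc3 : min (c / 3) (1 / 16) * ((n : ℝ) / L ^ 2) ≤ c / 3 * (n / L ^ 2) := mul_le_mul_of_nonneg_right (min_le_left _ _) hpos.le
  have hc16 : min (c / 3) (1 / 16) * ((n : ℝ) / L ^ 2) ≤ 1 / 16 * (n / L ^ 2) := mul_le_mul_of_nonneg_right (min_le_right _ _) hpos.le
  refine ⟨?_, fun U a ha h2a han hls => ?_, fun a ha han ha2n hwin => ?_⟩
  · have e1 := nb_zero n
    have e2 := Pool.Agent.N469.SQ.card_PR n (by omega)
    unfold Pool.Agent.N469.SQ.PR at e2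
    rw [← hL] at e2
    have e3 : 1 / 16 * ((n : ℝ) / L ^ 2) ≤ n / (2 * L) - 1 := by
      have e4 : (n : ℝ) / (2 * L) = (L / 2) * (n / L ^ 2) := by field_simp
      have e5 : 1 ≤ (n : ℝ) / L ^ 2 := by
        rw [le_div_iff₀ (by positivity), one_mul]
        have e6 : √(n : ℝ) ≤ n := by
          rw [Real.sqrt_le_left (by positivity)]
          nlinarith
        nlinarith
      rw [e4]
      nlinarith
    linarith
  · have e1 := nb_pair n a ha h2a han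
    have e2 := hlow U (n / 2) a (by omega) (by obtain ⟨k, hk⟩ := ha; exact ⟨k, by omega⟩) hls
    have e3 : (((Icc 1 (n / 2)).filter (fun p : ℕ => p.Prime ∧ (p + a).Prime)).card : ℝ) ≤ ((Nb n a).card : ℝ) := by exact_mod_cast e1
    refine le_trans ?_ (e2.trans e3)
    refine hc3.trans ?_
    have hM : (n : ℝ) / 3 ≤ ((n / 2 : ℕ) : ℝ) := by
      have : n ≤ 3 * (n / 2) := by omega
      have : (n : ℝ) ≤ 3 * ((n / 2 : ℕ) : ℝ) := by exact_mod_cast this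
      linarith
    have hM1 : (1 : ℝ) < ((n / 2 : ℕ) : ℝ) := by linarith
    have hLM : Real.log ((n / 2 : ℕ) : ℝ) ≤ L := by
      rw [hL]
      apply Real.log_le_log (by linarith)
      exact_mod_cast Nat.div_le_self n 2
    have hLM0 : 0 < Real.log ((n / 2 : ℕ) : ℝ) := Real.log_pos hM1
    calc c / 3 * (n / L ^ 2) = c * ((n / 3) / L ^ 2) := by ring
      _ ≤ c * (((n / 2 : ℕ) : ℝ) / Real.log ((n / 2 : ℕ) : ℝ) ^ 2) := by gcongr
  · have e1 := nb_sum n a ha (by omega) ha2n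
    have e3 : (cnt a (a / 2) a : ℝ) ≤ ((Nb n a).card : ℝ) := by
      unfold cnt
      exact_mod_cast e1
    refine le_trans ?_ e3
    refine hc16.trans ?_
    have hna : (n : ℝ) ≤ a := by exact_mod_cast han.le
    have ha2 : (a : ℝ) ≤ 2 * n := by exact_mod_cast ha2n
    have ha0 : (0 : ℝ) < a := by linarith
    have hLa : L ≤ Real.log (a : ℝ) := by rw [hL]; exact Real.log_le_log hn0 hna
    have hLa2 : Real.log (a : ℝ) ≤ 2 * L := by
      have f1 : Real.log (a : ℝ) ≤ Real.log ((n : ℝ) ^ 2) := Real.log_le_log ha0 (by nlinarith)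
      rw [Real.log_pow, ← hL] at f1
      push_cast at f1
      exact f1
    have hhalf : (a : ℝ) / 2 ≤ (a : ℝ) - ((a / 2 : ℕ) : ℝ) := by
      have : 2 * (a / 2) ≤ a := by omega
      have : 2 * ((a / 2 : ℕ) : ℝ) ≤ a := by exact_mod_cast this
      linarith
    have hw := hwin (a / 2) a (by omega) le_rfl (by
      rw [pow_one]
      refine le_trans ?_ hhalf
      exact div_le_div_of_nonneg_left ha0.le (by norm_num) (by linarith))
    have hs := Pool.Agent.W93.GB.one_le_sing a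
    have hw1 := (abs_le.1 hw).1
    obtain ⟨S, hS⟩ : ∃ S, S = Pool.Agent.H560R3.GB.sing a := ⟨_, rfl⟩
    rw [← hS] at hs hw1
    obtain ⟨Δ, hΔ⟩ : ∃ Δ, Δ = (a : ℝ) - ((a / 2 : ℕ) : ℝ) := ⟨_, rfl⟩
    rw [← hΔ] at hhalf hw1
    have hLa0 : 0 < Real.log (a : ℝ) := by linarith
    have f2 : (n : ℝ) / 2 / (2 * L) ^ 2 ≤ S * Δ / Real.log a ^ 2 := by
      have f3 : (n : ℝ) / 2 ≤ S * Δ := by nlinarith
      exact div_le_div₀ (by linarith) f3 (by positivity) (pow_le_pow_left₀ hLa0.le hLa2 2)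
    have f4 : (n : ℝ) / 2 / (2 * L) ^ 2 = 1 / 8 * (n / L ^ 2) := by field_simp; ring
    linarith

theorem core (μ : ℤ) (hμ : μ ≠ 0) (Kp Bc A U : ℕ) (c₁ : ℝ) (n₁ : ℕ) (δ : ℝ) (hδ : 0 < δ)
    (hdeg : ∀ n : ℕ, n₁ ≤ n →
      (c₁ * (n / Real.log n ^ 2) ≤ ((Nb n 0).card : ℝ)) ∧
      (∀ U a : ℕ, Even a → 2 ≤ a → a ≤ n → HLs (1 / 2) U (n / 2) (fun _ : Fin 1 => a) → c₁ * (n / Real.log n ^ 2) ≤ ((Nb n a).card : ℝ)) ∧
      (∀ a : ℕ, Even a → n < a → a ≤ 2 * n → WinP (1 / 2) 1 a → c₁ * (n / Real.log n ^ 2) ≤ ((Nb n a).card : ℝ))) :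
    ∃ N₀ : ℕ, ∀ N, N₀ ≤ N → ∀ P y, Cond δ Kp N P y → ∀ E : ℕ → Prop, ∀ _ : DecidablePred E,
    (∃ (cc : ℤ) (n : ℕ), |cc| ≤ Bc * N ∧ N = 2 * n ∧ ∀ v, E v → ∃ a : ℕ, |(((a : ℤ) - (cc + μ * (v : ℤ)) : ℤ) : ℝ)| ≤ Real.log N ^ A ∧
      Even a ∧ a ≤ 2 * n ∧ ((Nb n a).card : ℝ) < c₁ * (n / Real.log n ^ 2)) →
    ∑ v ∈ SS P N, (if E v then 1 / ((SS P N).card : ℝ) else 0) ≤ 1 / Real.log N ^ U := by
  classical
  obtain ⟨N1, h1⟩ := Pool.Agent.N469.TL.sm_pair1 μ hμ Kp Bc 5 A (U + 1) (1 / 2) (by norm_num) δ hδ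
  obtain ⟨N2, h2⟩ := Pool.Agent.N469.TL.sm_windows μ hμ Kp Bc 1 A (U + 1) 0 (1 / 2) (by norm_num) (fun m => WinP (1 / 2) 1 m)
    (fun m _ _ h => h) δ hδ
  obtain ⟨N3, h3⟩ := ev_L' 2
  refine ⟨N1 + N2 + N3 + 2 * n₁ + 16, fun N hN P y hP E _ hE => ?_⟩
  obtain ⟨cc, n, hcc, hNn, hbad⟩ := hE
  have hL := h3 N (by omega)
  have hL0 : 0 < Real.log N := by linarith
  obtain ⟨d0, d1, d2⟩ := hdeg n (by omega)
  have k1 := h1 N (by omega) P y hP (fun v : ℕ => ∃ r : ℤ, |(r : ℝ)| ≤ Real.log N ^ A ∧ 0 < cc + μ * (v : ℤ) + r ∧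
      ¬ HLs (1 / 2) (U + 1 + A + 1) (n / 2) (fun _ : Fin 1 => (cc + μ * (v : ℤ) + r).toNat)) (Classical.decPred _)
    ⟨cc, n / 2, hcc, by omega, by omega, fun v hv => hv⟩
  have k2 := h2 N (by omega) P y hP (fun v : ℕ => ∃ r : ℤ, |(r : ℝ)| ≤ Real.log N ^ A ∧ 0 < cc + μ * (v : ℤ) + r ∧
      2 ∣ cc + μ * (v : ℤ) + r ∧ ¬ WinP (1 / 2) 1 (cc + μ * (v : ℤ) + r).toNat) (Classical.decPred _)
    ⟨cc, hcc, fun v hv => hv⟩
  have hp0 : (0 : ℝ) ≤ 1 / ((SS P N).card : ℝ) := by positivity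
  have hsum : ∑ v ∈ SS P N, (if E v then 1 / ((SS P N).card : ℝ) else 0) ≤ 1 / Real.log N ^ (U + 1) + 1 / Real.log N ^ (U + 1) := by
    refine le_trans ?_ (add_le_add k1 k2)
    rw [← sum_add_distrib]
    apply sum_le_sum
    intro v _
    by_cases hv : E v
    · rw [if_pos hv]
      obtain ⟨a, ha1, ha2, ha3, ha4⟩ := hbad v hv
      have hr : cc + μ * (v : ℤ) + ((a : ℤ) - (cc + μ * (v : ℤ))) = a := by ring
      have hcase : (∃ r : ℤ, |(r : ℝ)| ≤ Real.log N ^ A ∧ 0 < cc + μ * (v : ℤ) + r ∧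
            ¬ HLs (1 / 2) (U + 1 + A + 1) (n / 2) (fun _ : Fin 1 => (cc + μ * (v : ℤ) + r).toNat)) ∨
          (∃ r : ℤ, |(r : ℝ)| ≤ Real.log N ^ A ∧ 0 < cc + μ * (v : ℤ) + r ∧
            2 ∣ cc + μ * (v : ℤ) + r ∧ ¬ WinP (1 / 2) 1 (cc + μ * (v : ℤ) + r).toNat) := by
        rcases Nat.eq_zero_or_pos a with h0 | h0
        · exfalso
          rw [h0] at ha4
          linarith
        obtain ⟨k, hk⟩ := ha2
        rcases le_or_gt a n with h5 | h5
        · left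
          refine ⟨(a : ℤ) - (cc + μ * (v : ℤ)), ha1, ?_, ?_⟩
          · rw [hr]
            exact_mod_cast h0
          · rw [hr, Int.toNat_natCast]
            intro hls
            have := d1 _ a ⟨k, hk⟩ (by omega) h5 hls
            linarith
        · right
          refine ⟨(a : ℤ) - (cc + μ * (v : ℤ)), ha1, ?_, ?_, ?_⟩
          · rw [hr]
            exact_mod_cast h0
          · rw [hr]
            omega
          · rw [hr, Int.toNat_natCast]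
            intro hw
            have := d2 a ⟨k, hk⟩ h5 ha3 hw
            linarith
      rcases hcase with h | h
      · rw [if_pos h]
        have : (0 : ℝ) ≤ if (∃ r : ℤ, |(r : ℝ)| ≤ Real.log N ^ A ∧ 0 < cc + μ * (v : ℤ) + r ∧
            2 ∣ cc + μ * (v : ℤ) + r ∧ ¬ WinP (1 / 2) 1 (cc + μ * (v : ℤ) + r).toNat) then 1 / ((SS P N).card : ℝ) else 0 := by
          split_ifs
          · exact hp0
          · exact le_rfl
        linarith
      · rw [if_pos h]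
        have : (0 : ℝ) ≤ if (∃ r : ℤ, |(r : ℝ)| ≤ Real.log N ^ A ∧ 0 < cc + μ * (v : ℤ) + r ∧
            ¬ HLs (1 / 2) (U + 1 + A + 1) (n / 2) (fun _ : Fin 1 => (cc + μ * (v : ℤ) + r).toNat)) then 1 / ((SS P N).card : ℝ) else 0 := by
          split_ifs
          · exact hp0
          · exact le_rfl
        linarith
    · rw [if_neg hv]
      apply add_nonneg
      · split_ifs
        · exact hp0
        · exact le_rfl
      · split_ifs
        · exact hp0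
        · exact le_rfl
  refine hsum.trans ?_
  rw [← add_div, div_le_div_iff₀ (by positivity) (by positivity), pow_succ]
  have : 0 < Real.log N ^ U := by positivity
  nlinarith

end Pool.Agent.N469.GG
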