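import Mathlib

set_option autoImplicit false

/-! Adding vertices with many neighbours to a set of vertices with few components of small diameter. -/

namespace Pool.Agent.N469.GG
open Finset

/-- the components and the distances after adding vertices which have a neighbour in the old set -/
theorem grow {V : Type} [Finite V] (G : SimpleGraph V) (X₀ X : Set V) (hsub : X₀ ⊆ X) (C : ℕ)
    (hC : Nat.card (G.induce X₀).ConnectedComponent ≤ C)
    (hd : ∀ u v : X₀, (G.induce X₀).Reachable u v → (G.induce X₀).dist u v ≤ C)
    (hX : ∀ x ∈ X, x ∉ X₀ → ∃ z ∈ X₀, G.Adj x z) :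
    Nat.card (G.induce X).ConnectedComponent ≤ C ∧
      ∀ u v : X, (G.induce X).Reachable u v → (G.induce X).dist u v ≤ C * (C + 3) := by
  classical
  obtain ⟨φ, hφ⟩ : ∃ φ : G.induce X₀ →g G.induce X, ∀ z, ((φ z : X) : V) = z := by
    refine ⟨⟨fun z => ⟨z.1, hsub z.2⟩, ?_⟩, fun z => rfl⟩
    intro a b hab
    exact hab
  have hatt : ∀ x : X, ∃ z : X₀, ∃ q : (G.induce X).Walk x (φ z), q.length ≤ 1 := by
    intro x
    by_cases h : x.1 ∈ X₀
    · have e : φ ⟨x.1, h⟩ = x := Subtype.ext (hφ _)
      refine ⟨⟨x.1, h⟩, SimpleGraph.Walk.nil.copy rfl e.symm, ?_⟩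
      simp
    · obtain ⟨z, hz, hadj⟩ := hX x.1 x.2 h
      have e : (G.induce X).Adj x (φ ⟨z, hz⟩) := by
        show G.Adj x.1 (φ ⟨z, hz⟩).1
        rw [hφ]
        exact hadj
      exact ⟨⟨z, hz⟩, SimpleGraph.Walk.cons e SimpleGraph.Walk.nil, by simp⟩
  choose f q hq using hatt
  constructor
  · have hsurj : Function.Surjective (SimpleGraph.ConnectedComponent.map φ) := by
      intro c
      induction c using SimpleGraph.ConnectedComponent.ind with
      | h x =>
        refine ⟨(G.induce X₀).connectedComponentMk (f x), ?_⟩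
        rw [SimpleGraph.ConnectedComponent.map_mk]
        exact SimpleGraph.ConnectedComponent.sound (q x).reachable.symm
    exact (Nat.card_le_card_of_surjective _ hsurj).trans hC
  · intro u v huv
    obtain ⟨p, hp⟩ := huv.exists_walk_length_eq_dist
    obtain ⟨D, hD⟩ : ∃ D, D = (G.induce X).dist u v := ⟨_, rfl⟩
    rw [← hD] at hp ⊢
    obtain ⟨col, hcol⟩ : ∃ col : ℕ → (G.induce X₀).ConnectedComponent,
      ∀ s, col s = (G.induce X₀).connectedComponentMk (f (p.getVert s)) := ⟨_, fun s => rfl⟩
    have hclose : ∀ s t : ℕ, s ≤ t → t ≤ D → col s = col t → t ≤ s + (C + 2) := by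
      intro s t hst htD hc
      rw [hcol, hcol] at hc
      have hr := SimpleGraph.ConnectedComponent.exact hc
      obtain ⟨w, hw⟩ := hr.exists_walk_length_eq_dist
      have hwC := hd _ _ hr
      rw [← hw] at hwC
      have hle := SimpleGraph.dist_le ((p.take s).append ((q (p.getVert s)).append ((w.map φ).append
        ((q (p.getVert t)).reverse.append (p.drop t)))))
      rw [← hD] at hle
      simp only [SimpleGraph.Walk.length_append, SimpleGraph.Walk.length_map, SimpleGraph.Walk.length_reverse,
        SimpleGraph.Walk.take_length, SimpleGraph.Walk.drop_length, hp] at hle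
      have h1 := hq (p.getVert s)
      have h2 := hq (p.getVert t)
      have h3 : min s D ≤ s := min_le_left _ _
      omega
    have hcard := card_le_mul_card_image (f := col) (range (D + 1)) (C + 3) (by
      intro a ha
      rw [mem_image] at ha
      obtain ⟨s0, hs0, hs0a⟩ := ha
      have hne : ((range (D + 1)).filter (fun x => col x = a)).Nonempty := ⟨s0, mem_filter.2 ⟨hs0, hs0a⟩⟩
      obtain ⟨m, hm⟩ : ∃ m, m = ((range (D + 1)).filter (fun x => col x = a)).min' hne := ⟨_, rfl⟩
      have hmm := min'_mem _ hne
      rw [← hm, mem_filter] at hmm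
      have hsub2 : (range (D + 1)).filter (fun x => col x = a) ⊆ Icc m (m + (C + 2)) := by
        intro t ht
        have h1 : m ≤ t := by
          rw [hm]
          exact min'_le _ _ ht
        rw [mem_filter, mem_range] at ht
        rw [mem_Icc]
        exact ⟨h1, hclose m t h1 (by omega) (hmm.2.trans ht.2.symm)⟩
      refine (card_le_card hsub2).trans ?_
      rw [Nat.card_Icc]
      omega)
    have himg : ((range (D + 1)).image col).card ≤ C := by
      have : Fintype (G.induce X₀).ConnectedComponent := Fintype.ofFinite _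
      refine (card_le_univ _).trans ?_
      rw [← Nat.card_eq_fintype_card]
      exact hC
    rw [card_range] at hcard
    have := Nat.mul_le_mul_left (C + 3) himg
    rw [mul_comm (C + 3) C] at this
    omega

end Pool.Agent.N469.GG
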